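import Pool.Agent.Lib.QTri.Final
import Pool.Agent.Lib.QTri.Transfer
import Pool.Agent.Lib.QTri.Spike

/-!
# A ternary spike without `F₇` and `F₇*` minors whose base polytope has no quadratic triangulation
-/

namespace Pool.Agent.Results.MP_02a80e_co.SpikesNotQuadratic

open Pool.Agent.Lib.QTri

/-- There is a tipless ternary spike that has no minor isomorphic to `F₇` or to `F₇*` and whose
base polytope has no quadratic triangulation. -/
theorem result : ∃ n : ℕ, ¬ HasMinor (spike n) F7 ∧ ¬ HasMinor (spike n) F7✶ ∧
    ¬ ∃ T : Set (Finset (Fin n × Bool → ℝ)), IsQuadratic (basePoints (spike n)) T := by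
  by_contra hcon
  apply no_canonical
  apply exists_canon spike (fun n B => spike_isBase_iff B)
  intro n
  by_contra hn
  exact hcon ⟨n, spike_no_F7 n, spike_no_F7_dual n, hn⟩

end Pool.Agent.Results.MP_02a80e_co.SpikesNotQuadratic
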